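import Pool.Agent.helper35.FGN.Asm

/-!
# The forest of a subgroup of `SL(n, ℤ)`, and profinite rigidity

Let `n ≥ 3`. Consider the unipotent elements `u` of a subgroup `H` of `SL(n, ℤ)` with one Jordan block of size three and all
others of size one (for `n = 3` the regular unipotent elements). The left vertex of `u` is the pair formed by the columns fixed
by `u` and the image of `(u - 1)²`, a line; the right vertex of `u` is the same for rows. For `n = 3` these are the line and the plane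
of `ℚ³` fixed by `u`, and the pair of both is an edge of the Tits building of `SL(3, ℚ)`. The edges (left vertex, right
vertex) of the elements of `H` of this kind form a graph. If `H` is Zariski dense of infinite index, the graph is a forest. If
moreover `H` is the image of a finitely generated residually finite group all of whose finite quotients are quotients of
`SL(n, ℤ)`, then no subgroup of finite index of `H` preserves a component of the forest.
-/

set_option autoImplicit false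

namespace Pool.Agent.Results.MP_a2a22c_al.FlagForest

open Matrix

/-- `H` is Zariski dense in `SL(n, ℤ)`: every integer polynomial in the matrix entries which vanishes on `H` vanishes on
`SL(n, ℤ)`. -/
def ZDense {n : ℕ} (H : Subgroup (SpecialLinearGroup (Fin n) ℤ)) : Prop :=
  ∀ F : MvPolynomial (Fin n × Fin n) ℤ,
    (∀ h ∈ H, MvPolynomial.eval (fun x : Fin n × Fin n => (h : Matrix (Fin n) (Fin n) ℤ) x.1 x.2) F = 0) →
    ∀ g : SpecialLinearGroup (Fin n) ℤ,
      MvPolynomial.eval (fun x : Fin n × Fin n => (g : Matrix (Fin n) (Fin n) ℤ) x.1 x.2) F = 0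

/-- `u` is unipotent with one Jordan block of size three and all others of size one. -/
def ThreeBlock {n : ℕ} (u : SpecialLinearGroup (Fin n) ℤ) : Prop :=
  ((u : Matrix (Fin n) (Fin n) ℤ) - 1) ^ 3 = 0 ∧ ((u : Matrix (Fin n) (Fin n) ℤ) - 1) ^ 2 ≠ 0 ∧
    ((u : Matrix (Fin n) (Fin n) ℤ).map (Int.castRingHom ℚ) - 1).rank = 2

/-- The left vertex of `u`: the integral columns fixed by `u`, and the integral columns in the rational image of
`(u - 1)²`. -/
def leftVertex {n : ℕ} (u : SpecialLinearGroup (Fin n) ℤ) : Set (Fin n → ℤ) × Set (Fin n → ℤ) :=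
  ({x | (u : Matrix (Fin n) (Fin n) ℤ) *ᵥ x = x},
    {x | ∃ k : ℤ, k ≠ 0 ∧ ∃ y : Fin n → ℤ, k • x = (((u : Matrix (Fin n) (Fin n) ℤ) - 1) ^ 2) *ᵥ y})

/-- The right vertex of `u`: the same for rows. -/
def rightVertex {n : ℕ} (u : SpecialLinearGroup (Fin n) ℤ) : Set (Fin n → ℤ) × Set (Fin n → ℤ) :=
  ({x | x ᵥ* (u : Matrix (Fin n) (Fin n) ℤ) = x},
    {x | ∃ k : ℤ, k ≠ 0 ∧ ∃ y : Fin n → ℤ, k • x = y ᵥ* (((u : Matrix (Fin n) (Fin n) ℤ) - 1) ^ 2)})

/-- The edges of `u 0, u 1, ..., u (2 k - 1)` (indices modulo `2 k`) form a closed polygon without backtracking in the graph of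
`H`: consecutive edges have alternately the same left and the same right vertex, and are different. -/
def Polygon {n : ℕ} (H : Subgroup (SpecialLinearGroup (Fin n) ℤ)) (k : ℕ)
    (u : ℕ → SpecialLinearGroup (Fin n) ℤ) : Prop :=
  1 ≤ k ∧ (∀ i, u (i + 2 * k) = u i) ∧ (∀ i, u i ∈ H ∧ ThreeBlock (u i)) ∧
    (∀ i, leftVertex (u (2 * i)) = leftVertex (u (2 * i + 1)) ∧
      rightVertex (u (2 * i)) ≠ rightVertex (u (2 * i + 1))) ∧
    ∀ i, rightVertex (u (2 * i + 1)) = rightVertex (u (2 * i + 2)) ∧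
      leftVertex (u (2 * i + 1)) ≠ leftVertex (u (2 * i + 2))

/-- The edges of `u` and `u'` are in the same component of the graph of `H`: there is a chain of elements of `H` with
`ThreeBlock`, consecutive ones with the same left vertex or the same right vertex. -/
def SameComponent {n : ℕ} (H : Subgroup (SpecialLinearGroup (Fin n) ℤ)) :
    SpecialLinearGroup (Fin n) ℤ → SpecialLinearGroup (Fin n) ℤ → Prop :=
  Relation.ReflTransGen fun a b => a ∈ H ∧ b ∈ H ∧ ThreeBlock a ∧ ThreeBlock b ∧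
    (leftVertex a = leftVertex b ∨ rightVertex a = rightVertex b)

/-- `Γ` is finitely generated and residually finite and every finite quotient of `Γ` is a quotient of `SL(n, ℤ)`. -/
def Dominated (n : ℕ) (Γ : Type) [Group Γ] : Prop :=
  Group.FG Γ ∧ (∀ g : Γ, g ≠ 1 → ∃ N : Subgroup Γ, N.index ≠ 0 ∧ g ∉ N) ∧
    ∀ (Q : Type) [Group Q] [Finite Q], (∃ f : Γ →* Q, Function.Surjective f) →
      ∃ f : SpecialLinearGroup (Fin n) ℤ →* Q, Function.Surjective f

/-- There are `u` with `ThreeBlock (φ u)` and a set `S` which generates a subgroup of finite index of `Γ` such that the edges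
of `φ u` and `φ (s u s⁻¹)` are in the same component, for all `s ∈ S`. -/
def Connected {n : ℕ} {Γ : Type} [Group Γ] (φ : Γ →* SpecialLinearGroup (Fin n) ℤ) : Prop :=
  ∃ (u : Γ) (S : Set Γ), ThreeBlock (φ u) ∧ (Subgroup.closure S).index ≠ 0 ∧
    ∀ s ∈ S, SameComponent φ.range (φ u) (φ (s * u * s⁻¹))

theorem left_iff {n : ℕ} (u u' : SpecialLinearGroup (Fin n) ℤ) :
    leftVertex u = leftVertex u' ↔ Pool.Agent.FGN.LeftEq u u' := Prod.ext_iff

theorem right_iff {n : ℕ} (u u' : SpecialLinearGroup (Fin n) ℤ) :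
    rightVertex u = rightVertex u' ↔ Pool.Agent.FGN.RightEq u u' := Prod.ext_iff

theorem chain_of {n : ℕ} {H : Subgroup (SpecialLinearGroup (Fin n) ℤ)} {a b : SpecialLinearGroup (Fin n) ℤ}
    (h : SameComponent H a b) : Pool.Agent.FGN.Chain H a b :=
  Relation.ReflTransGen.mono (fun x y hxy => ⟨hxy.1, hxy.2.1, hxy.2.2.1, hxy.2.2.2.1,
    hxy.2.2.2.2.imp (left_iff x y).1 (right_iff x y).1⟩) _ _ h

theorem polygon {n : ℕ} (hn : 3 ≤ n) {H : Subgroup (SpecialLinearGroup (Fin n) ℤ)} (hH : ZDense H) {k : ℕ}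
    {u : ℕ → SpecialLinearGroup (Fin n) ℤ} (h : Polygon H k u) : H.FiniteIndex := by
  obtain ⟨hk, hper, hu, hl, hr⟩ := h
  have h1 : ∀ i, u i = u (i % (2 * k)) := by
    intro i
    induction i using Nat.strong_induction_on with
    | _ i ih =>
      by_cases hi : i < 2 * k
      · rw [Nat.mod_eq_of_lt hi]
      · have h2 := ih (i - 2 * k) (by omega)
        have h3 : u (i - 2 * k + 2 * k) = u (i - 2 * k) := hper _
        rw [Nat.sub_add_cancel (by omega)] at h3
        rw [h3, h2, ← Nat.mod_eq_sub_mod (by omega)]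
  have hfin : (Set.range u).Finite := by
    refine (Set.finite_range (fun j : Fin (2 * k) => u j)).subset ?_
    rintro _ ⟨i, rfl⟩
    exact ⟨⟨i % (2 * k), Nat.mod_lt _ (by omega)⟩, (h1 i).symm⟩
  refine Pool.Agent.FGN.tPOL n hn H hH u hfin (fun i => hu i) (fun i => ⟨(left_iff _ _).1 (hl i).1, fun hc => ?_⟩)
    fun i => ⟨(right_iff _ _).1 (hr i).1, fun hc => ?_⟩
  · exact (hl i).2 ((right_iff _ _).2 hc)
  · exact (hr i).2 ((left_iff _ _).2 hc)

theorem connected {n : ℕ} (hn : 3 ≤ n) {Γ : Type} [Group Γ] (hΓ : Dominated n Γ)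
    {φ : Γ →* SpecialLinearGroup (Fin n) ℤ} (hφ : (Set.range φ).Infinite) (hc : Connected φ) :
    Function.Bijective φ := by
  obtain ⟨hfg, hrf, hq⟩ := hΓ
  obtain ⟨u, S, hu, hS, hch⟩ := hc
  obtain ⟨hinj, hP⟩ := Pool.Agent.LV.Prof_hom hn hfg hrf (fun Q _ _ h => hq Q h) φ hφ
  refine ⟨hinj, ?_⟩
  rw [← MonoidHom.range_eq_top]
  refine hP.eq_top ?_
  have hFG : Group.FG φ.range := by
    have := hfg
    exact Group.fg_of_surjective φ.rangeRestrict_surjective
  have hinf : Infinite φ.range := hφ.to_subtype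
  have hQ : Pool.Agent.PR.QuotLe φ.range (SpecialLinearGroup (Fin n) ℤ) := by
    intro Q _ _ ⟨f, hf⟩
    exact hq Q ⟨f.comp φ.rangeRestrict, hf.comp φ.rangeRestrict_surjective⟩
  obtain ⟨h1, h2⟩ := Pool.Agent.FGN.tPFC n hn φ.range hinf hQ
  refine Pool.Agent.FGN.tFIN n hn φ.range hFG hP.zdense h1 h2 (φ u) ⟨u, rfl⟩ hu (Subgroup.closure (φ '' S))
    ?_ ?_ ?_
  · rw [Subgroup.closure_le]
    rintro _ ⟨s, _, rfl⟩
    exact ⟨s, rfl⟩
  · rw [← MonoidHom.map_closure, MonoidHom.range_eq_map, Subgroup.relIndex_map_map_of_injective _ _ hinj,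
      Subgroup.relIndex_top_right]
    exact hS
  · refine Pool.Agent.FGN.GEN ?_ ?_
    · rintro _ ⟨s, _, rfl⟩
      exact ⟨s, rfl⟩
    · rintro _ ⟨s, hs, rfl⟩
      have h3 := hch s hs
      rw [map_mul, map_mul, map_inv] at h3
      exact chain_of h3

theorem connected_SL {n : ℕ} (hn : 3 ≤ n) {Γ : Type} [Group Γ] (e : Γ ≃* SpecialLinearGroup (Fin n) ℤ) :
    Connected e.toMonoidHom := by
  obtain ⟨u, S, hu, hS, hs⟩ := Pool.Agent.FGN.EXM n hn
  refine ⟨e.symm u, e ⁻¹' S, ?_, ?_, ?_⟩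
  · show ThreeBlock (e (e.symm u))
    rw [e.apply_symm_apply]
    exact hu
  · have h1 : Subgroup.closure (e ⁻¹' S) = ⊤ := by
      have h2 := MonoidHom.map_closure e.symm.toMonoidHom S
      have h3 : e.symm.toMonoidHom '' S = e ⁻¹' S := e.symm.toEquiv.image_eq_preimage_symm _
      rw [← h3, ← h2, hS, ← MonoidHom.range_eq_map, MonoidHom.range_eq_top]
      exact e.symm.surjective
    rw [h1, Subgroup.index_top]
    exact one_ne_zero
  · intro s hs'
    have hr : e.toMonoidHom.range = ⊤ := MonoidHom.range_eq_top.2 e.surjective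
    show SameComponent e.toMonoidHom.range (e (e.symm u)) (e (s * e.symm u * s⁻¹))
    rw [hr, map_mul, map_mul, map_inv, e.apply_symm_apply]
    refine Relation.ReflTransGen.single ⟨Subgroup.mem_top _, Subgroup.mem_top _, hu,
      Pool.Agent.FGN.FIN_U3_conj hu (e s), ?_⟩
    exact (hs (e s) hs').imp (left_iff _ _).2 (right_iff _ _).2

theorem infinite_SL {n : ℕ} (hn : 3 ≤ n) : Infinite (SpecialLinearGroup (Fin n) ℤ) := by
  have h01 : (⟨0, by omega⟩ : Fin n) ≠ ⟨1, by omega⟩ := by simp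
  refine Infinite.of_injective (fun c : ℤ => Pool.Agent.H48SL.xe (ι := Fin n) ⟨0, by omega⟩ ⟨1, by omega⟩ c) ?_
  intro a b hab
  have h1 := congrArg (fun g : SpecialLinearGroup (Fin n) ℤ =>
    ((g : Matrix (Fin n) (Fin n) ℤ) *ᵥ Pi.single ⟨1, by omega⟩ 1) ⟨0, by omega⟩) hab
  simp only [Pool.Agent.H48SL.xe_mulVec h01] at h1
  simpa using h1

theorem result (n : ℕ) (hn : 3 ≤ n) :
    (∀ H : Subgroup (SpecialLinearGroup (Fin n) ℤ), ZDense H →
      (∃ (k : ℕ) (u : ℕ → SpecialLinearGroup (Fin n) ℤ), Polygon H k u) → H.index ≠ 0) ∧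
    (∀ (Γ : Type) [Group Γ], Dominated n Γ →
      (∀ φ : Γ →* SpecialLinearGroup (Fin n) ℤ, (Set.range φ).Infinite → Connected φ → Function.Bijective φ) ∧
      (Nonempty (Γ ≃* SpecialLinearGroup (Fin n) ℤ) ↔
        ∃ φ : Γ →* SpecialLinearGroup (Fin n) ℤ, (Set.range φ).Infinite ∧ Connected φ)) := by
  refine ⟨fun H hH ⟨k, u, h⟩ => (polygon hn hH h).index_ne_zero,
    fun Γ _ hΓ => ⟨fun φ hφ hc => connected hn hΓ hφ hc, ?_, ?_⟩⟩
  · rintro ⟨e⟩
    refine ⟨e.toMonoidHom, ?_, connected_SL hn e⟩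
    have h1 : Set.range e.toMonoidHom = Set.univ := Set.range_eq_univ.2 e.surjective
    rw [h1]
    have := infinite_SL hn
    exact Set.infinite_univ
  · rintro ⟨φ, hφ, hc⟩
    exact ⟨MulEquiv.ofBijective φ (connected hn hΓ hφ hc)⟩

end Pool.Agent.Results.MP_a2a22c_al.FlagForest
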