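import Pool.Agent.helper35.LV.Asm
import Pool.Agent.helper73.TF.Asm

/-!
# The Levi criterion for subgroups of `SL(n, ℤ)`, criteria with transvections, and profinite rigidity

Let `n ≥ 3`, let `W` be a subgroup of `ℤⁿ`, `W ≠ 0`, `ℤⁿ / W` infinite, `Par W` the stabiliser of `W` in `SL(n, ℤ)` (a maximal
parabolic subgroup) and `Uni W` the subgroup of all elements of it which are trivial on `W` and on `ℤⁿ / W`. The group
`Par W / Uni W` is the Levi factor. If `H` is a Zariski dense subgroup of `SL(n, ℤ)` and `H ∩ Par W` is mapped onto a subgroup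
of finite index of the Levi factor, then `H` has finite index in `SL(n, ℤ)`; nothing is assumed on `H ∩ Uni W`. The same is
true if every vector of some rational plane is the centre of a transvection of `H` (for instance if `H` contains a subgroup of
finite index of a corner `SL(2, ℤ)`), if `H` contains a transvection `z = 1 + v f` and an element `g` with `|f (g v)| ≤ 2`
(except for trivial cases; for instance if `z` is in a subgroup `ℤ²` of `H`), or if there are relations with large exponents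
between transvections of `H` without common powers. So Q1 holds for the groups `Γ` with a homomorphism to `SL(n, ℤ)` with
infinite image of this kind.
-/

set_option autoImplicit false

namespace Pool.Agent.Results.MP_a2a22c_al.LeviCriterion

open Matrix

/-- `H` is Zariski dense in `SL(n, ℤ)`: every integer polynomial in the matrix entries which vanishes on `H` vanishes on
`SL(n, ℤ)`. -/
def ZDense {n : ℕ} (H : Subgroup (SpecialLinearGroup (Fin n) ℤ)) : Prop :=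
  ∀ F : MvPolynomial (Fin n × Fin n) ℤ,
    (∀ h ∈ H, MvPolynomial.eval (fun x : Fin n × Fin n => (h : Matrix (Fin n) (Fin n) ℤ) x.1 x.2) F = 0) →
    ∀ g : SpecialLinearGroup (Fin n) ℤ,
      MvPolynomial.eval (fun x : Fin n × Fin n => (g : Matrix (Fin n) (Fin n) ℤ) x.1 x.2) F = 0

/-- `W` is nonzero and some vector has no nonzero multiple in `W`: `W` spans a subspace `≠ 0`, `≠ ℚⁿ` of `ℚⁿ`. -/
def Proper {n : ℕ} (W : Submodule ℤ (Fin n → ℤ)) : Prop :=
  W ≠ ⊥ ∧ ∃ v, ∀ c : ℤ, c ≠ 0 → c • v ∉ W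

/-- The stabiliser of `W` in `SL(n, ℤ)`. -/
def Par {n : ℕ} (W : Submodule ℤ (Fin n → ℤ)) : Subgroup (SpecialLinearGroup (Fin n) ℤ) where
  carrier := {g | ∀ w, (g : Matrix (Fin n) (Fin n) ℤ) *ᵥ w ∈ W ↔ w ∈ W}
  one_mem' := (Pool.Agent.LV.Par W).one_mem
  mul_mem' := (Pool.Agent.LV.Par W).mul_mem
  inv_mem' := (Pool.Agent.LV.Par W).inv_mem

/-- The elements of `SL(n, ℤ)` which are trivial on `W` and on `ℤⁿ / W`. -/
def Uni {n : ℕ} (W : Submodule ℤ (Fin n → ℤ)) : Subgroup (SpecialLinearGroup (Fin n) ℤ) where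
  carrier := {g | (∀ w ∈ W, (g : Matrix (Fin n) (Fin n) ℤ) *ᵥ w = w) ∧
    ∀ v, (g : Matrix (Fin n) (Fin n) ℤ) *ᵥ v - v ∈ W}
  one_mem' := (Pool.Agent.LV.Uni W).one_mem
  mul_mem' := (Pool.Agent.LV.Uni W).mul_mem
  inv_mem' := (Pool.Agent.LV.Uni W).inv_mem

/-- The image of `H ∩ Par W` in the Levi factor `Par W / Uni W` has finite index. -/
def LargeLevi {n : ℕ} (H : Subgroup (SpecialLinearGroup (Fin n) ℤ)) (W : Submodule ℤ (Fin n → ℤ)) : Prop :=
  ((H ⊓ Par W) ⊔ Uni W).relIndex (Par W) ≠ 0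

/-- The image of `H ∩ Par W` in the Levi factor `Par W / Uni W` contains a power of the image of every transvection in
`Par W`. -/
def LeviPowers {n : ℕ} (H : Subgroup (SpecialLinearGroup (Fin n) ℤ)) (W : Submodule ℤ (Fin n → ℤ)) : Prop :=
  ∀ t ∈ Par W, (∃ x ψ : Fin n → ℤ, ψ ⬝ᵥ x = 0 ∧ (t : Matrix (Fin n) (Fin n) ℤ) = 1 + vecMulVec x ψ) →
    ∃ j : ℕ, 1 ≤ j ∧ t ^ j ∈ (H ⊓ Par W) ⊔ Uni W

/-- `z` is a transvection: `z ≠ 1`, `z = 1 + v f` for a column `v` and a row `f`. -/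
def Transvection {n : ℕ} (z : SpecialLinearGroup (Fin n) ℤ) (v f : Fin n → ℤ) : Prop :=
  z ≠ 1 ∧ (z : Matrix (Fin n) (Fin n) ℤ) = 1 + vecMulVec v f

/-- There are linearly independent vectors `v`, `v'` such that every vector `a v + b v' ≠ 0`, `a, b ∈ ℤ`, is the centre of a
transvection of `H`. -/
def Plane {n : ℕ} (H : Subgroup (SpecialLinearGroup (Fin n) ℤ)) : Prop :=
  ∃ v v' : Fin n → ℤ, (∀ a b : ℤ, a • v + b • v' = 0 → a = 0 ∧ b = 0) ∧
    ∀ a b : ℤ, (a ≠ 0 ∨ b ≠ 0) → ∃ z ∈ H, ∃ f : Fin n → ℤ, Transvection z (a • v + b • v') f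

/-- `H` contains a transvection `z = 1 + v f` and an element `g` with `|f (g v)| ≤ 2`, such that `g z g⁻¹` is different from
`z` and `z⁻¹` or no positive power of `g` is a power of `z`. -/
def Small {n : ℕ} (H : Subgroup (SpecialLinearGroup (Fin n) ℤ)) : Prop :=
  ∃ z ∈ H, ∃ g ∈ H, ∃ v f : Fin n → ℤ, Transvection z v f ∧ |f ⬝ᵥ ((g : Matrix (Fin n) (Fin n) ℤ) *ᵥ v)| ≤ 2 ∧
    ((g * z * g⁻¹ ≠ z ∧ g * z * g⁻¹ ≠ z⁻¹) ∨ ∀ k : ℕ, 1 ≤ k → ∀ m : ℤ, g ^ k ≠ z ^ m)

/-- `H` contains transvections `z i`, `i < s`, no two of which have a common power, such that for every `M` there is a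
relation `z i₁ ^ a₁ * ... * z iₘ ^ aₘ = 1`, `m ≥ 1`, with different neighbours `i₁ ≠ i₂ ≠ ... ≠ iₘ` and exponents
`|a| ≥ M`. -/
def LargeRelations {n : ℕ} (H : Subgroup (SpecialLinearGroup (Fin n) ℤ)) : Prop :=
  ∃ (s : ℕ) (z : Fin s → SpecialLinearGroup (Fin n) ℤ), (∀ i, z i ∈ H ∧ ∃ v f : Fin n → ℤ, Transvection (z i) v f) ∧
    (∀ i j, i ≠ j → ∀ a b : ℤ, a ≠ 0 → b ≠ 0 → z i ^ a ≠ z j ^ b) ∧
    ∀ M : ℕ, ∃ w : List (Fin s × ℤ), w ≠ [] ∧ (w.map Prod.fst).IsChain (fun i j => i ≠ j) ∧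
      (∀ p ∈ w, (M : ℤ) ≤ |p.2|) ∧ (w.map fun p => z p.1 ^ p.2).prod = 1

/-- One of the five conditions. -/
def Criterion {n : ℕ} (H : Subgroup (SpecialLinearGroup (Fin n) ℤ)) : Prop :=
  (∃ W : Submodule ℤ (Fin n → ℤ), Proper W ∧ (LargeLevi H W ∨ LeviPowers H W)) ∨ Plane H ∨ Small H ∨ LargeRelations H

/-- `Γ` is finitely generated and residually finite and every finite quotient of `Γ` is a quotient of `SL(n, ℤ)`. -/
def Dominated (n : ℕ) (Γ : Type) [Group Γ] : Prop :=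
  Group.FG Γ ∧ (∀ g : Γ, g ≠ 1 → ∃ N : Subgroup Γ, N.index ≠ 0 ∧ g ∉ N) ∧
    ∀ (Q : Type) [Group Q] [Finite Q], (∃ f : Γ →* Q, Function.Surjective f) →
      ∃ f : SpecialLinearGroup (Fin n) ℤ →* Q, Function.Surjective f

/-- Every finite quotient of `SL(n, ℤ)` is a quotient of `Γ`. -/
def Dominates (n : ℕ) (Γ : Type) [Group Γ] : Prop :=
  ∀ (Q : Type) [Group Q] [Finite Q], (∃ f : SpecialLinearGroup (Fin n) ℤ →* Q, Function.Surjective f) →
    ∃ f : Γ →* Q, Function.Surjective f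

theorem par_eq {n : ℕ} (W : Submodule ℤ (Fin n → ℤ)) : Par W = Pool.Agent.LV.Par W :=
  Subgroup.ext fun _ => Iff.rfl

theorem uni_eq {n : ℕ} (W : Submodule ℤ (Fin n → ℤ)) : Uni W = Pool.Agent.LV.Uni W :=
  Subgroup.ext fun _ => Iff.rfl

theorem finite_of_powers {n : ℕ} (hn : 3 ≤ n) {H : Subgroup (SpecialLinearGroup (Fin n) ℤ)} (hH : ZDense H)
    {W : Submodule ℤ (Fin n → ℤ)} (hW : Proper W) (hL : LeviPowers H W) : H.FiniteIndex := by
  refine Pool.Agent.LV.tT n hn H hH W hW fun x ψ hx ht => ?_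
  rw [← par_eq, ← uni_eq]
  refine hL _ ((par_eq W).symm ▸ ht) ⟨x, ψ, hx, ?_⟩
  exact Pool.Agent.H48SL.tv_coe hx

theorem powers_of_large {n : ℕ} {H : Subgroup (SpecialLinearGroup (Fin n) ℤ)} {W : Submodule ℤ (Fin n → ℤ)}
    (h : LargeLevi H W) : LeviPowers H W := by
  intro t ht _
  obtain ⟨j, hj, _, hm⟩ := Subgroup.exists_pow_mem_of_relIndex_ne_zero h ht
  exact ⟨j, hj, hm.1⟩

theorem finite_of_levi {n : ℕ} (hn : 3 ≤ n) {H : Subgroup (SpecialLinearGroup (Fin n) ℤ)} (hH : ZDense H)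
    {W : Submodule ℤ (Fin n → ℤ)} (hW : Proper W) (hL : LargeLevi H W ∨ LeviPowers H W) : H.FiniteIndex :=
  finite_of_powers hn hH hW (hL.elim powers_of_large id)

theorem finite_of_plane {n : ℕ} (hn : 3 ≤ n) {H : Subgroup (SpecialLinearGroup (Fin n) ℤ)} (hH : ZDense H)
    (h : Plane H) : H.FiniteIndex := by
  obtain ⟨v, v', hI, hz⟩ := h
  refine (Pool.Agent.H48SL.final_pencil (by simpa using hn) H v v' hI fun a b hab => ?_).1 hH
  obtain ⟨z, hzH, f, hz1, hzf⟩ := hz a b hab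
  exact ⟨z, hzH, hz1, f, hzf⟩

theorem finite_of_small {n : ℕ} (hn : 3 ≤ n) {H : Subgroup (SpecialLinearGroup (Fin n) ℤ)} (hH : ZDense H)
    (h : Small H) : H.FiniteIndex := by
  obtain ⟨z, hz, g, hg, v, f, ⟨hz1, hzf⟩, hs, h2⟩ := h
  exact (Pool.Agent.H48SL.final_coef (by simpa using hn) H v f z g hz hg hz1 hzf hs h2).1 hH

theorem finite_of_relations {n : ℕ} (hn : 3 ≤ n) {H : Subgroup (SpecialLinearGroup (Fin n) ℤ)} (hH : ZDense H)
    (h : LargeRelations H) : H.FiniteIndex := by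
  by_contra hi
  obtain ⟨s, z, hz, hc, hw⟩ := h
  have hr : H.subtype.range = H := Subgroup.range_subtype H
  have hR : Pool.Agent.TF.Rk H.subtype.range := by
    rw [hr]
    exact Pool.Agent.TF.TRK n hn H hH hi
  refine Pool.Agent.TF.Fin_rel Pool.Agent.TF.BGP H.subtype Subtype.val_injective hR
    {g : H | Pool.Agent.TF.IsTv (g : SpecialLinearGroup (Fin n) ℤ)} (fun g hg => hg) s (fun i => ⟨z i, (hz i).1⟩)
    (fun i => ?_) (fun i j hij a b ha hb hab => ?_) fun M => ?_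
  · obtain ⟨v, f, h1, h2⟩ := (hz i).2
    obtain ⟨e1, e2, e3, e4⟩ := Pool.Agent.H48SL.tv_data h1 h2
    exact ⟨v, f, e1, e2, e3, e4⟩
  · refine hc i j hij a b ha hb ?_
    have h1 := congrArg H.subtype hab
    rw [map_zpow, map_zpow] at h1
    exact h1
  · obtain ⟨w, h1, h2, h3, h4⟩ := hw M
    refine ⟨w, h1, h2, h3, ?_⟩
    apply Subtype.val_injective
    have h5 := map_list_prod H.subtype (w.map fun p => (⟨z p.1, (hz p.1).1⟩ : H) ^ p.2)
    rw [List.map_map] at h5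
    have h6 : (H.subtype ∘ fun p : Fin s × ℤ => (⟨z p.1, (hz p.1).1⟩ : H) ^ p.2) = fun p => z p.1 ^ p.2 := by
      funext p
      rw [Function.comp_apply, map_zpow]
      rfl
    rw [h6, h4] at h5
    exact h5

theorem finite_of {n : ℕ} (hn : 3 ≤ n) {H : Subgroup (SpecialLinearGroup (Fin n) ℤ)} (hH : ZDense H)
    (h : Criterion H) : H.FiniteIndex := by
  rcases h with ⟨W, hW, hL⟩ | h | h | h
  · exact finite_of_levi hn hH hW hL
  · exact finite_of_plane hn hH h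
  · exact finite_of_small hn hH h
  · exact finite_of_relations hn hH h

theorem result (n : ℕ) (hn : 3 ≤ n) :
    (∀ H : Subgroup (SpecialLinearGroup (Fin n) ℤ), ZDense H → Criterion H → H.index ≠ 0) ∧
    (∀ (Γ : Type) [Group Γ], Dominated n Γ →
      (∀ φ : Γ →* SpecialLinearGroup (Fin n) ℤ, (Set.range φ).Infinite → Criterion φ.range → Function.Bijective φ) ∧
      (Dominates n Γ → ∃ φ : Γ →* SpecialLinearGroup (Fin n) ℤ, Function.Injective φ ∧ ZDense φ.range)) := by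
  refine ⟨fun H hH hL => (finite_of hn hH hL).index_ne_zero, ?_⟩
  intro Γ _ hΓ
  obtain ⟨hfg, hrf, hq⟩ := hΓ
  refine ⟨fun φ hφ hL => ?_, fun hq' => ?_⟩
  · obtain ⟨h1, h2⟩ := Pool.Agent.LV.Prof_hom hn hfg hrf (fun Q _ _ h => hq Q h) φ hφ
    refine ⟨h1, ?_⟩
    rw [← MonoidHom.range_eq_top]
    exact h2.eq_top (finite_of hn h2.zdense hL)
  · obtain ⟨H, hH, ⟨e⟩⟩ := Pool.Agent.UG.Abs_emb n hn Γ hfg hrf
      (fun Q _ _ => ⟨fun h => hq Q h, fun h => hq' Q h⟩)
    have hr : (H.subtype.comp e.toMonoidHom).range = H := by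
      ext x
      constructor
      · rintro ⟨g, rfl⟩
        exact (e g).2
      · intro hx
        refine ⟨e.symm ⟨x, hx⟩, ?_⟩
        show ((e (e.symm ⟨x, hx⟩) : H) : SpecialLinearGroup (Fin n) ℤ) = x
        rw [e.apply_symm_apply]
    refine ⟨H.subtype.comp e.toMonoidHom, Subtype.val_injective.comp e.injective, ?_⟩
    rw [hr]
    exact hH.zdense

end Pool.Agent.Results.MP_a2a22c_al.LeviCriterion
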