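import Pool.Agent.helper22.RG9.Asm3

/-!
# Profinite rigidity of `SL(n, ℤ)` and root graded groups

Let `n ≥ 3` and let `Γ` be a finitely generated residually finite group with the finite quotients of `SL(n, ℤ)`. `Γ` is isomorphic to
`SL(n, ℤ)` if and only if it is graded by a root system `A_(m-1)`, `m ≥ 3`, with an infinite root subgroup. It is enough that there
is a homomorphism `f : Δ → Γ` from a subgroup of finite index of a weakly graded group which is infinite on a root subgroup, if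
`n ≤ 1 + m (m - 1) / 2` (always true for `n = 3` and `n = 4`), or if the image of `f` is normalised by a subgroup of finite index; for instance
`Γ` may contain an elementary group `EL_m(R)` over any infinite ring `R`.
The reason: a Zariski dense subgroup of `SL(n, ℤ)` which contains `f(Δ)` has finite index if `n ≤ 1 + m (m - 1) / 2`, or if it
normalises `f(Δ)`.
-/

set_option autoImplicit false

namespace Pool.Agent.Results.MP_a2a22c_al.RootGraded

open Matrix

/-- `H` is Zariski dense in `SL(n, ℤ)`: every integer polynomial in the matrix entries which vanishes on `H` vanishes on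
`SL(n, ℤ)`. -/
def ZDense {n : ℕ} (H : Subgroup (SpecialLinearGroup (Fin n) ℤ)) : Prop :=
  ∀ F : MvPolynomial (Fin n × Fin n) ℤ,
    (∀ h ∈ H, MvPolynomial.eval (fun x : Fin n × Fin n => (h : Matrix (Fin n) (Fin n) ℤ) x.1 x.2) F = 0) →
    ∀ g : SpecialLinearGroup (Fin n) ℤ,
      MvPolynomial.eval (fun x : Fin n × Fin n => (g : Matrix (Fin n) (Fin n) ℤ) x.1 x.2) F = 0

/-- The group `D` is generated by its subgroups `X i j`, `i ≠ j` in `{0, .., m - 1}`; `X i j` and `X k l` commute elementwise if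
`j ≠ k` and `i ≠ l`; for distinct `i, j, k` the commutators of the elements of `X i j` and `X j k` are in `X i k`, and the
`N`-th powers of the elements of `X i k` are in the group generated by these commutators. (The `X i i` play no role.) -/
structure Grading {D : Type} [Group D] {m : ℕ} (N : ℕ) (X : Fin m → Fin m → Subgroup D) : Prop where
  commute : ∀ i j k l, i ≠ j → k ≠ l → j ≠ k → i ≠ l → ∀ x ∈ X i j, ∀ y ∈ X k l, x * y = y * x
  commutators : ∀ i j k, i ≠ j → j ≠ k → i ≠ k → ∀ x ∈ X i j, ∀ y ∈ X j k, x * y * x⁻¹ * y⁻¹ ∈ X i k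
  powers : ∀ i j k, i ≠ j → j ≠ k → i ≠ k → ∀ g ∈ X i k,
    g ^ N ∈ Subgroup.closure {g | ∃ x ∈ X i j, ∃ y ∈ X j k, g = x * y * x⁻¹ * y⁻¹}
  generate : Subgroup.closure {g | ∃ i j, i ≠ j ∧ g ∈ X i j} = ⊤

/-- The homomorphism `f` is defined on a subgroup `Δ` of finite index of a group `D` with a grading, of rank `m - 1 ≥ 2`, and it is
infinite on the intersection of `Δ` with a root subgroup. -/
def Ample {D G : Type} [Group D] [Group G] {m : ℕ} (N : ℕ) (X : Fin m → Fin m → Subgroup D) (Δ : Subgroup D)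
    (f : Δ →* G) : Prop :=
  3 ≤ m ∧ 1 ≤ N ∧ Grading N X ∧ Δ.FiniteIndex ∧ ∃ i j, i ≠ j ∧ (f '' {x : Δ | (x : D) ∈ X i j}).Infinite

/-- The subgroup `M` normalises the subgroup `P`. -/
def Normalises {G : Type} [Group G] (M P : Subgroup G) : Prop :=
  ∀ g ∈ M, ∀ d ∈ P, g * d * g⁻¹ ∈ P

/-- `n ≤ 1 + m (m - 1) / 2`, or the subgroup `P` of `G` is normalised by a subgroup `M` of finite index. -/
def Large (n m : ℕ) {G : Type} [Group G] (P : Subgroup G) : Prop :=
  n ≤ 1 + m * (m - 1) / 2 ∨ ∃ M : Subgroup G, M.FiniteIndex ∧ Normalises M P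

/-- `Γ` has a grading by a root system `A_(m-1)`, `m ≥ 3`, with an infinite root subgroup. -/
def Graded (Γ : Type) [Group Γ] : Prop :=
  ∃ (m : ℕ) (X : Fin m → Fin m → Subgroup Γ), 3 ≤ m ∧ Grading 1 X ∧ ∃ i j, i ≠ j ∧ (X i j : Set Γ).Infinite

/-- There is an ample homomorphism to `Γ` with large image. -/
def WeaklyGraded (n : ℕ) (Γ : Type) [Group Γ] : Prop :=
  ∃ (D : Type) (_ : Group D) (m N : ℕ) (X : Fin m → Fin m → Subgroup D) (Δ : Subgroup D) (f : Δ →* Γ),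
    Ample N X Δ f ∧ Large n m f.range

/-- The group of elementary matrices: the subgroup of `GL(m, R)` generated by the `1 + r E_ij`, `i ≠ j`, `r ∈ R`. -/
def Elementary (m : ℕ) (R : Type) [Ring R] : Subgroup (Matrix (Fin m) (Fin m) R)ˣ :=
  Subgroup.closure {u | ∃ (i j : Fin m) (r : R), i ≠ j ∧ (u : Matrix (Fin m) (Fin m) R) = 1 + Matrix.single i j r}

/-- The group `P` is isomorphic to a subgroup of finite index of the group `E`. -/
def IsFiniteIndexIn (P E : Type) [Group P] [Group E] : Prop :=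
  ∃ Δ : Subgroup E, Δ.FiniteIndex ∧ Nonempty (Δ ≃* P)

theorem result (n : ℕ) (hn : 3 ≤ n) :
    (∀ (Γ : Type) [Group Γ], Group.FG Γ →
      (∀ g : Γ, g ≠ 1 → ∃ N : Subgroup Γ, N.index ≠ 0 ∧ g ∉ N) →
      (∀ (Q : Type) [Group Q] [Finite Q], (∃ f : Γ →* Q, Function.Surjective f) ↔
        (∃ f : SpecialLinearGroup (Fin n) ℤ →* Q, Function.Surjective f)) →
      (Nonempty (Γ ≃* SpecialLinearGroup (Fin n) ℤ) ↔ Graded Γ) ∧
      (Nonempty (Γ ≃* SpecialLinearGroup (Fin n) ℤ) ↔ WeaklyGraded n Γ) ∧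
      ∀ (m : ℕ) (R : Type) [Ring R] [Infinite R] (P : Subgroup Γ), 3 ≤ m → IsFiniteIndexIn P (Elementary m R) →
        Large n m P → Nonempty (Γ ≃* SpecialLinearGroup (Fin n) ℤ)) ∧
    ∀ (D : Type) [Group D] (m N : ℕ) (X : Fin m → Fin m → Subgroup D) (Δ : Subgroup D)
      (f : Δ →* SpecialLinearGroup (Fin n) ℤ), Ample N X Δ f →
      ∀ H : Subgroup (SpecialLinearGroup (Fin n) ℤ), ZDense H →
        (n ≤ 1 + m * (m - 1) / 2 → f.range ≤ H → H.FiniteIndex) ∧
        (Normalises H f.range → f.range.FiniteIndex) := by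
  have hwg : ∀ {D : Type} [Group D] {m N : ℕ} {X : Fin m → Fin m → Subgroup D}, Grading N X →
      Pool.Agent.RG9.WG N X ∧ Pool.Agent.RG9.gd X = ⊤ := fun h => ⟨⟨h.commute, h.commutators, h.powers⟩, h.generate⟩
  refine ⟨?_, ?_⟩
  · intro Γ _ hfg hrf hq
    have hB : WeaklyGraded n Γ → Nonempty (Γ ≃* SpecialLinearGroup (Fin n) ℤ) := by
      rintro ⟨D, _, m, N, X, Δ, f, ⟨hm, hN, hX, hΔ, hinf⟩, hL⟩
      rcases hL with hL | ⟨M, hM, hMD⟩
      · exact Pool.Agent.RG9.Core3_B Pool.Agent.RG9.INF Pool.Agent.RG9.tWGI Pool.Agent.RG9.PRK Pool.Agent.RG9.tRKH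
          hn Γ hfg hrf hq hm hN (by omega) D X (hwg hX).1 Δ hΔ f hinf
      · exact Pool.Agent.RG9.Core2_B Pool.Agent.RG9.INF Pool.Agent.RG9.tGR2 Pool.Agent.RG9.tWGI Pool.Agent.RG9.PRK
          Pool.Agent.RG9.tCR2 hn Γ hfg hrf hq hm hN D X (hwg hX).1 (hwg hX).2 Δ hΔ f hinf M hM hMD
    have hG : Graded Γ → WeaklyGraded n Γ := by
      rintro ⟨m, X, hm, hX, i, j, hij, hinf⟩
      refine ⟨Γ, inferInstance, m, 1, X, ⊤, (⊤ : Subgroup Γ).subtype, ⟨hm, le_rfl, hX, inferInstance, i, j, hij, ?_⟩,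
        Or.inr ⟨⊤, inferInstance, ?_⟩⟩
      · refine hinf.mono ?_
        intro x hx
        exact ⟨⟨x, Subgroup.mem_top x⟩, hx, rfl⟩
      · intro g _ d _
        exact ⟨⟨g * d * g⁻¹, Subgroup.mem_top _⟩, rfl⟩
    have hC : Nonempty (Γ ≃* SpecialLinearGroup (Fin n) ℤ) → Graded Γ := by
      rintro ⟨e⟩
      obtain ⟨X, hX, hinf, htop⟩ := Pool.Agent.RG9.Core_C Pool.Agent.RG9.CNV hn Γ e
      have hX' := Pool.Agent.RG9.Core2_wg hX
      refine ⟨n, X, hn, ⟨hX'.comm, hX'.sub, hX'.pow, htop⟩, ⟨0, by omega⟩, ⟨1, by omega⟩, by simp, ?_⟩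
      exact hinf _ _ (by simp)
    refine ⟨⟨hC, fun h => hB (hG h)⟩, ⟨fun h => hG (hC h), hB⟩, ?_⟩
    rintro m R _ hR P hm ⟨Δ, hΔ, ⟨e⟩⟩ hL
    have hr : (P.subtype.comp e.toMonoidHom).range = P := by
      ext x
      refine ⟨?_, fun hx => ?_⟩
      · rintro ⟨y, rfl⟩
        exact (e y).2
      · exact ⟨e.symm ⟨x, hx⟩, by simp⟩
    have hf : Function.Injective (P.subtype.comp e.toMonoidHom) :=
      (Subtype.val_injective).comp e.injective
    have hX := Pool.Agent.RG9.Core2_wg (Pool.Agent.RG9.Core_S (Pool.Agent.RG9.EL_stg m R))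
    have h01 : (⟨0, by omega⟩ : Fin m) ≠ ⟨1, by omega⟩ := by simp
    exact hB ⟨Elementary m R, inferInstance, m, 1, Pool.Agent.RG9.Core_X (Pool.Agent.RG9.EL_stg m R), Δ,
      P.subtype.comp e.toMonoidHom, ⟨hm, le_rfl, ⟨hX.comm, hX.sub, hX.pow, Pool.Agent.RG9.EL_top m R⟩, hΔ, _, _, h01,
        Pool.Agent.RG9.Fin_inf R hR Δ hΔ _ hf h01⟩, by rw [hr]; exact hL⟩
  · rintro D _ m N X Δ f ⟨hm, hN, hX, hΔ, hinf⟩ H hH
    refine ⟨fun hnm hle => ?_, fun hMD => ?_⟩
    · exact Pool.Agent.RG9.Core3_A Pool.Agent.RG9.INF Pool.Agent.RG9.tWGI Pool.Agent.RG9.PRK Pool.Agent.RG9.tRKH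
        hn hm hN (by omega) D X (hwg hX).1 Δ hΔ f hinf H hH hle
    · exact Pool.Agent.RG9.Core2_A Pool.Agent.RG9.INF Pool.Agent.RG9.tGR2 Pool.Agent.RG9.tWGI Pool.Agent.RG9.PRK
        Pool.Agent.RG9.tCR2 hn hm hN D X (hwg hX).1 (hwg hX).2 Δ hΔ f hinf H hH hMD

end Pool.Agent.Results.MP_a2a22c_al.RootGraded
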