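import Pool.Agent.helper54.UG.Abs
import Pool.Agent.helper81.UH.Asm
import Pool.Agent.helper31.STH.Fin

/-!
# Unipotent subgroups of thin subgroups of `SL(n, ℤ)`

Let `n ≥ 3` and let `H` be a Zariski dense subgroup of `SL(n, ℤ)`. If `H` contains a unipotent group `A` such that
every integral vector is fixed by some `1 ≠ a ∈ A` then `H` has finite index; if `H` is profinitely dense
then `H = SL(n, ℤ)`. The same holds if `H` contains a unipotent group of Hirsch length `n - 1`: the unipotent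
subgroups of a Zariski dense subgroup of infinite index have Hirsch length at most `n - 2`, and this is sharp for
every `n ≥ 3`. Further consequences: its abelian subgroups `1 + span X_i`, `X_i X_j = 0`, have rank at most the dimension
of the joint image of the `X_i`; it contains no arithmetic subgroup of `SL(m, D)`, `m ≥ 2`, `D ≠ ℚ` a division
algebra, of `Sp(2 r, K)`, `K ≠ ℚ` a number field, or of `SO(q)`, `q` a rational isotropic form in `n ≥ 4` variables.
-/

set_option autoImplicit false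

namespace Pool.Agent.Results.MP_a2a22c_al.UnipotentSubgroups

open Matrix Pool.Agent.H48SL

/-- all elements of `A` are unipotent matrices -/
def Unipotent {n : ℕ} (A : Subgroup (Matrix.SpecialLinearGroup (Fin n) ℤ)) : Prop :=
  ∀ a ∈ A, IsNilpotent ((a : Matrix (Fin n) (Fin n) ℤ) - 1)

/-- the matrix with rational entries of an element of `SL(n, ℤ)` -/
def rat {n : ℕ} (h : Matrix.SpecialLinearGroup (Fin n) ℤ) : Matrix (Fin n) (Fin n) ℚ :=
  (h : Matrix (Fin n) (Fin n) ℤ).map (Int.castRingHom ℚ)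

/-- One of the following conditions on a subgroup `H` of `SL(n, ℤ)`. -/
inductive Cond {n : ℕ} (H : Subgroup (Matrix.SpecialLinearGroup (Fin n) ℤ)) : Prop
  /-- `H` contains a unipotent group `A` such that every vector is fixed by some `1 ≠ a ∈ A`. -/
  | vectors (A : Subgroup (Matrix.SpecialLinearGroup (Fin n) ℤ)) (hAH : A ≤ H) (hA : Unipotent A)
      (h : ∀ v : Fin n → ℤ, ∃ a ∈ A, a ≠ 1 ∧ (a : Matrix (Fin n) (Fin n) ℤ) *ᵥ v = v)
  /-- `H` contains a unipotent group `A` such that every row vector is fixed by some `1 ≠ a ∈ A`. -/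
  | covectors (A : Subgroup (Matrix.SpecialLinearGroup (Fin n) ℤ)) (hAH : A ≤ H) (hA : Unipotent A)
      (h : ∀ v : Fin n → ℤ, ∃ a ∈ A, a ≠ 1 ∧ v ᵥ* (a : Matrix (Fin n) (Fin n) ℤ) = v)
  /-- `H` contains a unipotent group generated by `n - 1` elements `a_0, a_1, ...` such that no positive
  power of `a_i` is in the group generated by the previous ones (Hirsch length at least `n - 1`). -/
  | hirsch (a : Fin (n - 1) → Matrix.SpecialLinearGroup (Fin n) ℤ) (haH : ∀ i, a i ∈ H)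
      (hA : Unipotent (Subgroup.closure (Set.range a)))
      (h : ∀ i, ∀ k : ℕ, 1 ≤ k → a i ^ k ∉ Subgroup.closure {b | ∃ j, j < i ∧ b = a j})
  /-- `H` contains `m` elements `1 + X_i`, `X_i X_j = 0` for all `i, j`, the `X_i` are linearly independent,
  and the images (or the images of the transposed matrices) of all `X_i` are contained in a space `P` of
  dimension less than `m`. -/
  | abelian (m : ℕ) (X : Fin m → Matrix (Fin n) (Fin n) ℤ) (hX : LinearIndependent ℤ X)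
      (hXX : ∀ i j, X i * X j = 0) (hXH : ∀ i, ∃ h ∈ H, (h : Matrix (Fin n) (Fin n) ℤ) = 1 + X i)
      (P : Submodule ℚ (Fin n → ℚ)) (hP : Module.finrank ℚ P < m)
      (hPX : (∀ (i : Fin m) (v : Fin n → ℤ), castV (X i *ᵥ v) ∈ P) ∨
        (∀ (i : Fin m) (v : Fin n → ℤ), castV (v ᵥ* X i) ∈ P))
  /-- `D ≠ ℚ` is a finite dimensional division algebra over `ℚ`, `ℚⁿ` is a `D`-module of rank at least
  `2`, and every `D`-linear `X` with `X² = 0` has a multiple with `1 + k X ∈ H`, `k ≥ 1`. -/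
  | divisionAlgebra (D : Type) [DivisionRing D] [Algebra ℚ D] [FiniteDimensional ℚ D]
      (f : D →ₐ[ℚ] Matrix (Fin n) (Fin n) ℚ) (hD : 2 ≤ Module.finrank ℚ D)
      (hn : Module.finrank ℚ D < n)
      (h : ∀ X : Matrix (Fin n) (Fin n) ℚ, (∀ c : D, f c * X = X * f c) → X * X = 0 →
        ∃ k : ℕ, 1 ≤ k ∧ ∃ h ∈ H, rat h = 1 + (k : ℚ) • X)
  /-- `K ≠ ℚ` is a number field, `ℚⁿ` is a `K`-vector space with a nondegenerate alternating form `ω`,
  and for all `u ∈ ℚⁿ`, `c ∈ K` some map `s ↦ s + k c ω(u, s) u`, `k ≥ 1`, is in `H`. -/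
  | symplectic (K : Type) [Field K] [Algebra ℚ K] [FiniteDimensional ℚ K]
      (f : K →ₐ[ℚ] Matrix (Fin n) (Fin n) ℚ) (hK : 2 ≤ Module.finrank ℚ K)
      (ω : (Fin n → ℚ) →ₗ[ℚ] (Fin n → ℚ) →ₗ[ℚ] K) (hlin : ∀ u s c, ω u (f c *ᵥ s) = c * ω u s)
      (halt : ∀ u, ω u u = 0) (hnd : ∀ u, u ≠ 0 → ∃ s, ω u s ≠ 0)
      (h : ∀ (u : Fin n → ℚ) (c : K), ∃ k : ℕ, 1 ≤ k ∧ ∃ h ∈ H,
        ∀ s, rat h *ᵥ s = s + (k : ℚ) • (f (c * ω u s) *ᵥ u))
  /-- `n ≥ 4`, `S` is a nondegenerate symmetric rational matrix whose quadratic form has a rational zero, and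
  every `g ∈ SL(n, ℤ)` which preserves the form has a power in `H`. -/
  | orthogonal (hn : 4 ≤ n) (S : Matrix (Fin n) (Fin n) ℚ) (hS : Sᵀ = S) (hdet : S.det ≠ 0)
      (hiso : ∃ v : Fin n → ℚ, v ≠ 0 ∧ v ⬝ᵥ (S *ᵥ v) = 0)
      (h : ∀ g : Matrix.SpecialLinearGroup (Fin n) ℤ, (rat g)ᵀ * S * rat g = S →
        ∃ k : ℕ, 1 ≤ k ∧ g ^ k ∈ H)

theorem finite_index (n : ℕ) (hn : 3 ≤ n) (H : Subgroup (Matrix.SpecialLinearGroup (Fin n) ℤ))
    (hH : Cond H) : (ZDense H → H.FiniteIndex) ∧ (ProfDense H → H = ⊤) := by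
  apply both
  intro hZ
  cases hH with
  | vectors A hAH hA h =>
    exact Pool.Agent.UG.Core_G Pool.Agent.UG.tG0 Pool.Agent.UG.EXJ Pool.Agent.UG.tKOL
      Pool.Agent.UG.tMAL hn hZ hAH hA h
  | covectors A hAH hA h =>
    exact Pool.Agent.UG.Core_GT Pool.Agent.UG.tG0 Pool.Agent.UG.EXJ Pool.Agent.UG.tKOL
      Pool.Agent.UG.tMAL Pool.Agent.UG.TRP hn hZ hAH hA h
  | hirsch a haH hA h =>
    exact Pool.Agent.UH.Core_J Pool.Agent.UH.tFIN hn hZ a haH hA h
  | abelian m X hX hXX hXH P hP hPX =>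
    exact Pool.Agent.UG.Core2_P Pool.Agent.UG.tG0 Pool.Agent.UG.EXJ Pool.Agent.UG.tKOL
      Pool.Agent.UG.tMAL Pool.Agent.UG.TRP hn hZ X hX hXX hXH P hP hPX
  | divisionAlgebra D f hD hn' h =>
    exact Pool.Agent.UG.tKD n D f H hD hn' h hZ
  | symplectic K f hK ω hlin halt hnd h =>
    exact Pool.Agent.UG.tKS n K f ω H (by omega) hK ⟨hlin, halt, hnd, h⟩ hZ
  | orthogonal hn' S hS hdet hiso h =>
    exact Pool.Agent.UG.tSOF n hn' S H hS hdet h hiso hZ

theorem result (n : ℕ) (hn : 3 ≤ n) :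
    (∀ H : Subgroup (Matrix.SpecialLinearGroup (Fin n) ℤ), Cond H →
      (ZDense H → H.FiniteIndex) ∧ (ProfDense H → H = ⊤)) ∧
    (∃ H : Subgroup (Matrix.SpecialLinearGroup (Fin n) ℤ), H.FG ∧ ZDense H ∧ H.index = 0 ∧
      ∃ A ≤ H, Unipotent A ∧ Nonempty (A ≃* Multiplicative (Fin (n - 2) → ℤ))) ∧
    ∀ (L : Type) [Group L], Group.FG L →
      (∀ g : L, g ≠ 1 → ∃ N : Subgroup L, N.index ≠ 0 ∧ g ∉ N) →
      (∀ (Q : Type) [Group Q] [Finite Q],
        (∃ f : L →* Q, Function.Surjective f) ↔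
        (∃ f : Matrix.SpecialLinearGroup (Fin n) ℤ →* Q, Function.Surjective f)) →
      IsEmpty (L ≃* Matrix.SpecialLinearGroup (Fin n) ℤ) →
      ∃ H : Subgroup (Matrix.SpecialLinearGroup (Fin n) ℤ), ProfDense H ∧ Nonempty (L ≃* H) ∧
        ¬ Cond H := by
  refine ⟨finite_index n hn, Pool.Agent.STH.sharp n hn, ?_⟩
  intro L _ hfg hrf hq hL
  obtain ⟨H, hH, ⟨e⟩⟩ := Pool.Agent.UG.Abs_emb n hn L hfg hrf hq
  refine ⟨H, hH, ⟨e⟩, ?_⟩
  intro hc
  have h1 := (finite_index n hn H hc).2 hH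
  subst h1
  exact hL.false (e.trans Subgroup.topEquiv)

end Pool.Agent.Results.MP_a2a22c_al.UnipotentSubgroups
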